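import Mathlib

open Filter Topology Set Function
open scoped BoundedContinuousFunction

namespace Pool.Agent.Results.MP_18d2fb_an.NeumannFails

/-- `E` (a vector space over `𝕜` with a uniform structure) is a space of type `(B₀)`, that is a
Frechet space: the uniform structure is compatible with the additive group, the space is Hausdorff
and complete, and its topology comes from an increasing sequence of seminorms. -/
structure IsTypeB0 (𝕜 E : Type) [RCLike 𝕜] [AddCommGroup E] [Module 𝕜 E] [UniformSpace E] :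
    Prop where
  uniformAddGroup : IsUniformAddGroup E
  hausdorff : T2Space E
  complete : CompleteSpace E
  seminorms : ∃ p : ℕ → Seminorm 𝕜 E, Monotone p ∧ WithSeminorms p

section abstract_part

variable {𝕜 X : Type} [RCLike 𝕜] [NormedAddCommGroup X] [NormedSpace 𝕜 X] [CompleteSpace X]

/-- The projective limit of `X ← X ← X ← ...` along `V`. -/
def lim (V : X →L[𝕜] X) : Submodule 𝕜 (ℕ → X) where
  carrier := {f | ∀ k, f k = V (f (k + 1))}
  add_mem' := by
    intro a b ha hb k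
    simp only [Set.mem_ofPred_eq] at ha hb
    simp [ha k, hb k]
  zero_mem' := by intro k; simp
  smul_mem' := by
    intro c a ha k
    simp only [Set.mem_ofPred_eq] at ha
    simp [ha k]

theorem mem_lim {V : X →L[𝕜] X} {f : ℕ → X} : f ∈ lim V ↔ ∀ k, f k = V (f (k + 1)) := Iff.rfl

theorem lim_closed (V : X →L[𝕜] X) : IsClosed (lim V : Set (ℕ → X)) := by
  have : (lim V : Set (ℕ → X)) = ⋂ k, {f | f k = V (f (k + 1))} := by
    ext f; simp [mem_lim]
  rw [this]
  refine isClosed_iInter fun k => ?_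
  exact isClosed_eq (continuous_apply k) (V.continuous.comp (continuous_apply (k + 1)))

theorem lim_pow {V : X →L[𝕜] X} (f : lim V) (k j : ℕ) : f.1 j = (V ^ k) (f.1 (j + k)) := by
  induction k generalizing j with
  | zero => simp
  | succ k ih =>
    rw [pow_succ, mul_apply_eq_comp, ih j, f.2 (j + k), add_assoc]

/-- the shift `(U f) k = f (k+1)` -/
def shift (V : X →L[𝕜] X) : lim V →L[𝕜] lim V where
  toFun f := ⟨fun k => f.1 (k + 1), fun k => f.2 (k + 1)⟩
  map_add' f g := rfl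
  map_smul' c f := rfl
  cont := by
    refine Continuous.subtype_mk ?_ _
    exact continuous_pi fun k => (continuous_apply (k + 1)).comp continuous_subtype_val

theorem shift_apply (V : X →L[𝕜] X) (f : lim V) (k : ℕ) : (shift V f).1 k = f.1 (k + 1) := rfl

theorem shift_pow_apply (V : X →L[𝕜] X) (f : lim V) (n k : ℕ) :
    ((shift V ^ n) f).1 k = f.1 (k + n) := by
  induction n generalizing f k with
  | zero => simp
  | succ n ih =>
    rw [pow_succ, mul_apply_eq_comp, ih, shift_apply]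
    congr 1

/-- the seminorm `‖f m‖` -/
noncomputable def semi (V : X →L[𝕜] X) (m : ℕ) : Seminorm 𝕜 (lim V) :=
  (normSeminorm 𝕜 X).comp ((LinearMap.proj m : (ℕ → X) →ₗ[𝕜] X).comp (lim V).subtype)

theorem semi_apply (V : X →L[𝕜] X) (m : ℕ) (f : lim V) : semi V m f = ‖f.1 m‖ := rfl

theorem lim_typeB0 (V : X →L[𝕜] X) (hV : ‖V‖ ≤ 1) : IsTypeB0 𝕜 (lim V) where
  uniformAddGroup := (lim V).toAddSubgroup.isUniformAddGroup
  hausdorff := inferInstance
  complete := (lim_closed V).completeSpace_coe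
  seminorms := by
    refine ⟨semi V, ?_, ?_⟩
    · refine monotone_nat_of_le_succ fun m => ?_
      intro f
      rw [semi_apply, semi_apply, f.2 m]
      calc ‖V (f.1 (m + 1))‖ ≤ ‖V‖ * ‖f.1 (m + 1)‖ := V.le_opNorm _
        _ ≤ 1 * ‖f.1 (m + 1)‖ := by gcongr
        _ = _ := one_mul _
    · rw [SeminormFamily.withSeminorms_iff_nhds_eq_iInf]
      rw [nhds_subtype_eq_comap, ZeroMemClass.coe_zero, nhds_pi, Filter.pi, Filter.comap_iInf]
      refine iInf_congr fun m => ?_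
      rw [Filter.comap_comap, Pi.zero_apply, ← comap_norm_nhds_zero, Filter.comap_comap]
      rfl

theorem isUnit_one_sub (V : X →L[𝕜] X)
    (h : ∀ c : ℝ, Tendsto (fun k => c ^ k * ‖V ^ k‖) atTop (𝓝 0)) (μ : 𝕜) :
    IsUnit (1 - μ • V) := by
  have h1 := h ‖μ‖
  obtain ⟨n, hn⟩ := (h1.eventually (gt_mem_nhds (zero_lt_one' ℝ))).exists
  have h2 : ‖(μ • V) ^ n‖ < 1 := by
    rw [smul_pow]
    rw [norm_smul, norm_pow]
    exact hn
  have h3 : IsUnit (1 - (μ • V) ^ n) := isUnit_one_sub_of_norm_lt_one h2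
  have h4 : (∑ i ∈ Finset.range n, (μ • V) ^ i) * (1 - μ • V) = 1 - (μ • V) ^ n := by
    have := geom_sum_mul (μ • V) n
    rw [← neg_sub (μ • V) 1, mul_neg, this, neg_sub]
  have h5 : Commute (∑ i ∈ Finset.range n, (μ • V) ^ i) (1 - μ • V) := by
    apply Commute.sub_right
    · exact Commute.one_right _
    · exact Commute.sum_left _ _ _ fun i _ => (Commute.refl (μ • V)).pow_left i
  rw [← h4] at h3
  exact (h5.isUnit_mul_iff.1 h3).2

theorem bijective_sub (V : X →L[𝕜] X)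
    (h : ∀ c : ℝ, Tendsto (fun k => c ^ k * ‖V ^ k‖) atTop (𝓝 0)) (l : 𝕜) :
    Bijective (fun f : lim V => f - l • shift V f) := by
  by_cases hl : l = 0
  · subst hl
    simp only [zero_smul, sub_zero]
    exact bijective_id
  obtain ⟨u, hu⟩ := isUnit_one_sub V h l⁻¹
  set B : X →L[𝕜] X := ↑u⁻¹ with hB
  have hB1 : ∀ x : X, B (x - l⁻¹ • V x) = x := by
    intro x
    have : (B * (1 - l⁻¹ • V)) x = x := by rw [hB, ← hu, Units.inv_mul]; rfl
    simpa using this
  have hB2 : ∀ x : X, B x - l⁻¹ • V (B x) = x := by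
    intro x
    have : ((1 - l⁻¹ • V) * B) x = x := by rw [hB, ← hu, Units.mul_inv]; rfl
    simpa using this
  have hcomm : ∀ x : X, V (B x) = B (V x) := by
    intro x
    have e1 := hB1 (V (B x))
    have e2 : V (B x) - l⁻¹ • V (V (B x)) = V x := by
      rw [← map_smul, ← map_sub, hB2]
    rw [e2] at e1
    exact e1.symm
  constructor
  · intro f g hfg
    simp only at hfg
    have key : ∀ k, f.1 (k + 1) = g.1 (k + 1) := by
      intro k
      have e := congrArg (fun z : lim V => z.1 k) hfg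
      simp only [Submodule.coe_sub, Pi.sub_apply, Submodule.coe_smul, Pi.smul_apply,
        shift_apply] at e
      rw [f.2 k, g.2 k] at e
      have e2 : (f.1 (k + 1) - g.1 (k + 1)) - l⁻¹ • V (f.1 (k + 1) - g.1 (k + 1)) = 0 := by
        rw [map_sub]
        have e3 : V (f.1 (k + 1)) - V (g.1 (k + 1)) = l • (f.1 (k + 1) - g.1 (k + 1)) := by
          rw [smul_sub]
          have := sub_eq_zero.2 e
          rw [← sub_eq_zero]
          rw [← this]
          abel
        rw [e3, smul_smul, inv_mul_cancel₀ hl, one_smul, sub_self]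
      have e4 := hB1 (f.1 (k + 1) - g.1 (k + 1))
      rw [e2, map_zero] at e4
      exact sub_eq_zero.1 e4.symm
    apply Subtype.ext
    funext k
    rw [f.2 k, g.2 k, key k]
  · intro g
    refine ⟨⟨fun k => -(l⁻¹ • B (V (g.1 k))), ?_⟩, ?_⟩
    · intro k
      simp only
      rw [← g.2 k, map_neg, map_smul, hcomm]
    · apply Subtype.ext
      funext k
      simp only [Submodule.coe_sub, Pi.sub_apply, Submodule.coe_smul, Pi.smul_apply,
        shift_apply]
      rw [← g.2 k, smul_neg, smul_smul, mul_inv_cancel₀ hl, one_smul, sub_neg_eq_add,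
        ← hcomm]
      have := hB2 (g.1 k)
      rw [neg_add_eq_sub]
      exact this

theorem diverges (V : X →L[𝕜] X)
    (h : ∀ c : ℝ, Tendsto (fun k => c ^ k * ‖V ^ k‖) atTop (𝓝 0)) (l : 𝕜) (hl : l ≠ 0)
    (f : lim V) (hf : f ≠ 0) :
    ¬ ∃ y : lim V, Tendsto (fun n => ∑ k ∈ Finset.range n, l ^ k • (shift V ^ k) f) atTop
      (𝓝 y) := by
  rintro ⟨y, hy⟩
  apply hf
  apply Subtype.ext
  funext j
  have h1 : Tendsto (fun n => l ^ n • (shift V ^ n) f) atTop (𝓝 0) := by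
    have h2 := (hy.comp (tendsto_add_atTop_nat 1)).sub hy
    rw [sub_self] at h2
    refine h2.congr fun n => ?_
    simp [Finset.sum_range_succ]
  have h3 : Tendsto (fun n => l ^ n • f.1 (j + n)) atTop (𝓝 0) := by
    have h4 : Continuous (fun z : lim V => z.1 j) :=
      (continuous_apply j).comp continuous_subtype_val
    have h5 := (h4.tendsto 0).comp h1
    refine h5.congr fun n => ?_
    simp only [Function.comp_apply, Submodule.coe_smul, Pi.smul_apply, shift_pow_apply]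
  have h6 : Tendsto (fun n => (‖l‖⁻¹ ^ n * ‖V ^ n‖) * ‖l ^ n • f.1 (j + n)‖) atTop (𝓝 0) := by
    have := (h ‖l‖⁻¹).mul h3.norm
    simpa using this
  have h7 : ∀ n, ‖f.1 j‖ ≤ (‖l‖⁻¹ ^ n * ‖V ^ n‖) * ‖l ^ n • f.1 (j + n)‖ := by
    intro n
    have hl' : ‖l‖ ≠ 0 := norm_ne_zero_iff.2 hl
    rw [lim_pow f n j, norm_smul, norm_pow l]
    calc ‖(V ^ n) (f.1 (j + n))‖ ≤ ‖V ^ n‖ * ‖f.1 (j + n)‖ := (V ^ n).le_opNorm _
      _ = ‖l‖⁻¹ ^ n * ‖V ^ n‖ * (‖l‖ ^ n * ‖f.1 (j + n)‖) := by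
        have : ‖l‖⁻¹ ^ n * ‖l‖ ^ n = 1 := by
          rw [← mul_pow, inv_mul_cancel₀ hl', one_pow]
        linear_combination (-(‖V ^ n‖ * ‖f.1 (j + n)‖)) * this
  have h8 : ‖f.1 j‖ ≤ 0 := ge_of_tendsto' h6 h7
  simpa using h8

end abstract_part

section concrete_part

variable (𝕜 : Type) [RCLike 𝕜]

/-- `ψ n = n * |n|` -/
def psi (n : ℤ) : ℤ := n * |n|

theorem psi_diff (n : ℤ) (k : ℕ) : (k : ℤ) ^ 2 ≤ 2 * (psi n - psi (n - k)) := by
  unfold psi
  have hk : (0 : ℤ) ≤ k := Int.natCast_nonneg k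
  rcases le_total 0 n with h1 | h1
  · rcases le_total 0 (n - k) with h2 | h2
    · rw [abs_of_nonneg h1, abs_of_nonneg h2]
      nlinarith [mul_nonneg hk h2]
    · rw [abs_of_nonneg h1, abs_of_nonpos h2]
      nlinarith [sq_nonneg (2 * n - k)]
  · have h2 : n - k ≤ 0 := by linarith
    rw [abs_of_nonpos h1, abs_of_nonpos h2]
    nlinarith [mul_nonneg hk (neg_nonneg.2 h1)]

theorem W_bound (k : ℕ) (f : ℤ →ᵇ 𝕜) (n : ℤ) :
    ‖((2 : ℝ) ^ (psi (n - k) - psi n) : ℝ) • f (n - k)‖ ≤ ‖f‖ := by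
  rw [norm_smul, Real.norm_of_nonneg (by positivity)]
  have h1 : (2 : ℝ) ^ (psi (n - k) - psi n) ≤ 1 := by
    apply zpow_le_one_of_nonpos₀ (by norm_num)
    have := psi_diff n k
    nlinarith [sq_nonneg (k : ℤ)]
  calc (2 : ℝ) ^ (psi (n - k) - psi n) * ‖f (n - k)‖ ≤ 1 * ‖f‖ := by
        gcongr
        exact f.norm_coe_le_norm _
    _ = ‖f‖ := one_mul _

/-- The weighted shifts `(W k f) n = 2 ^ (ψ (n - k) - ψ n) f (n - k)` on bounded functions. -/
noncomputable def W (k : ℕ) : (ℤ →ᵇ 𝕜) →L[𝕜] (ℤ →ᵇ 𝕜) :=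
  LinearMap.mkContinuous
    { toFun := fun f => BoundedContinuousFunction.ofNormedAddCommGroupDiscrete
        (fun n => ((2 : ℝ) ^ (psi (n - k) - psi n) : ℝ) • f (n - k)) ‖f‖ (W_bound 𝕜 k f)
      map_add' := by intro f g; ext n; simp [smul_add]
      map_smul' := by
        intro c f; ext n
        simp }
    1 (by
      intro f
      rw [one_mul]
      exact BoundedContinuousFunction.norm_ofNormedAddCommGroup_le _ (norm_nonneg _)
        (W_bound 𝕜 k f))

theorem W_apply (k : ℕ) (f : ℤ →ᵇ 𝕜) (n : ℤ) :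
    W 𝕜 k f n = ((2 : ℝ) ^ (psi (n - k) - psi n) : ℝ) • f (n - k) := rfl

theorem W_norm_le (k : ℕ) (a : ℝ) (ha : 0 ≤ a)
    (h : ∀ n, (2 : ℝ) ^ (psi (n - k) - psi n) ≤ a) : ‖W 𝕜 k‖ ≤ a := by
  refine ContinuousLinearMap.opNorm_le_bound _ ha fun f => ?_
  rw [BoundedContinuousFunction.norm_le (by positivity)]
  intro n
  rw [W_apply, norm_smul, Real.norm_of_nonneg (by positivity)]
  exact mul_le_mul (h n) (f.norm_coe_le_norm _) (norm_nonneg _) ha

theorem W_pow (k : ℕ) : (W 𝕜 1) ^ k = W 𝕜 k := by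
  induction k with
  | zero =>
    ext f n
    rw [W_apply]
    simp
  | succ k ih =>
    ext f n
    rw [pow_succ, mul_apply_eq_comp, ih, W_apply, W_apply, W_apply, smul_smul,
      ← zpow_add₀ (by norm_num : (2 : ℝ) ≠ 0)]
    have e : n - (k : ℤ) - ((1 : ℕ) : ℤ) = n - ((k + 1 : ℕ) : ℤ) := by push_cast; ring
    rw [e]
    congr 2
    ring

theorem W_tendsto (c : ℝ) : Tendsto (fun k => c ^ k * ‖(W 𝕜 1) ^ k‖) atTop (𝓝 0) := by
  have hb : ∀ k : ℕ, ‖c ^ k * ‖(W 𝕜 1) ^ k‖‖ ^ 2 ≤ (c ^ 2 / 2 ^ k) ^ k := by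
    intro k
    rw [W_pow, norm_mul, norm_norm, norm_pow, Real.norm_eq_abs, mul_pow]
    have h1 : ‖W 𝕜 k‖ ^ 2 ≤ 1 / 2 ^ (k * k) := by
      have h2 : ‖W 𝕜 k‖ ≤ √(1 / 2 ^ (k * k)) := by
        refine W_norm_le 𝕜 k _ (Real.sqrt_nonneg _) fun n => ?_
        apply Real.le_sqrt_of_sq_le
        rw [← zpow_natCast, ← zpow_mul, one_div, ← zpow_natCast, ← zpow_neg]
        apply zpow_le_zpow_right₀ (by norm_num)
        have := psi_diff n k
        push_cast
        nlinarith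
      calc ‖W 𝕜 k‖ ^ 2 ≤ (√(1 / 2 ^ (k * k))) ^ 2 := by gcongr
        _ = _ := Real.sq_sqrt (by positivity)
    calc (|c| ^ k) ^ 2 * ‖W 𝕜 k‖ ^ 2 ≤ (|c| ^ k) ^ 2 * (1 / 2 ^ (k * k)) := by gcongr
      _ = (c ^ 2 / 2 ^ k) ^ k := by
        rw [div_pow, ← pow_mul, ← pow_mul, ← pow_mul, mul_comm k 2, pow_mul, sq_abs, ← pow_mul]
        ring
  have h0 : Tendsto (fun k : ℕ => (c ^ 2 / 2 ^ k) ^ k) atTop (𝓝 0) := by
    have h1 : Tendsto (fun k : ℕ => c ^ 2 / 2 ^ k) atTop (𝓝 0) :=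
      tendsto_const_nhds.div_atTop (tendsto_pow_atTop_atTop_of_one_lt (by norm_num))
    have h2 : ∀ᶠ k : ℕ in atTop, c ^ 2 / 2 ^ k < 1 / 2 :=
      h1.eventually (gt_mem_nhds (by norm_num))
    refine squeeze_zero' (Eventually.of_forall fun k => by positivity) (g := fun k => (1 / 2) ^ k)
      ?_ (tendsto_pow_atTop_nhds_zero_of_lt_one (by norm_num) (by norm_num))
    filter_upwards [h2] with k hk
    gcongr
  rw [tendsto_zero_iff_norm_tendsto_zero]
  have h3 : Tendsto (fun k => ‖c ^ k * ‖(W 𝕜 1) ^ k‖‖ ^ 2) atTop (𝓝 0) :=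
    squeeze_zero (fun k => by positivity) hb h0
  have h4 := h3.sqrt
  rw [Real.sqrt_zero] at h4
  refine h4.congr fun k => ?_
  exact Real.sqrt_sq (norm_nonneg _)

/-- A nonzero element of the limit. -/
noncomputable def witness (k : ℕ) : ℤ →ᵇ 𝕜 :=
  BoundedContinuousFunction.ofNormedAddCommGroupDiscrete
    (fun n : ℤ => if n = -(k : ℤ) then (((2 : ℝ) ^ (k * k) : ℝ) : 𝕜) else 0) (2 ^ (k * k)) (by
      intro n
      split_ifs
      · rw [RCLike.norm_ofReal, abs_of_nonneg (by positivity)]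
      · rw [norm_zero]; positivity)

theorem witness_apply (k : ℕ) (n : ℤ) :
    witness 𝕜 k n = if n = -(k : ℤ) then (((2 : ℝ) ^ (k * k) : ℝ) : 𝕜) else 0 := rfl

theorem witness_mem : (fun k => witness 𝕜 k) ∈ lim (W 𝕜 1) := by
  intro k
  ext n
  rw [W_apply, witness_apply, witness_apply]
  by_cases hn : n = -(k : ℤ)
  · have hn' : n - ((1 : ℕ) : ℤ) = -((k + 1 : ℕ) : ℤ) := by rw [hn]; push_cast; ring
    rw [if_pos hn, if_pos hn', hn', hn]
    rw [RCLike.real_smul_eq_coe_mul, ← RCLike.ofReal_mul, ← smul_eq_mul]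
    congr 1
    have e : psi (-((k + 1 : ℕ) : ℤ)) - psi (-(k : ℤ)) =
        ((k * k : ℕ) : ℤ) - (((k + 1) * (k + 1) : ℕ) : ℤ) := by
      unfold psi
      rw [abs_neg, abs_neg, Nat.abs_cast, Nat.abs_cast]
      push_cast
      ring
    rw [e, zpow_sub₀ (by norm_num), zpow_natCast, zpow_natCast, smul_eq_mul,
      div_mul_cancel₀ _ (by positivity)]
  · have hn' : ¬ (n - ((1 : ℕ) : ℤ) = -((k + 1 : ℕ) : ℤ)) := by
      intro h; apply hn; push_cast at h; linarith
    rw [if_neg hn, if_neg hn', smul_zero]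

end concrete_part

/-- For `𝕜 = ℝ` and for `𝕜 = ℂ` there are a nonzero space `E` of type `(B₀)` and a continuous linear
`U : E → E` such that `I - l U` is a bijection of `E` for every scalar `l`, but for every `l ≠ 0` and
every `x ≠ 0` the Neumann series `∑ l^k U^k x` diverges. -/
theorem result (𝕜 : Type) [RCLike 𝕜] :
    ∃ (E : Type) (_ : AddCommGroup E) (_ : Module 𝕜 E) (_ : UniformSpace E),
      IsTypeB0 𝕜 E ∧ (∃ x : E, x ≠ 0) ∧
      ∃ U : E →L[𝕜] E,
        (∀ l : 𝕜, Bijective (fun x : E => x - l • U x)) ∧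
        ∀ l : 𝕜, l ≠ 0 → ∀ x : E, x ≠ 0 →
          ¬ ∃ y : E, Tendsto (fun n : ℕ => ∑ k ∈ Finset.range n, l ^ k • (U^[k]) x)
            atTop (𝓝 y) := by
  refine ⟨lim (W 𝕜 1), inferInstance, inferInstance, inferInstance, ?_, ?_, shift (W 𝕜 1), ?_, ?_⟩
  · apply lim_typeB0
    refine W_norm_le 𝕜 1 1 zero_le_one fun n => ?_
    apply zpow_le_one_of_nonpos₀ (by norm_num)
    have := psi_diff n 1
    push_cast at this ⊢
    linarith
  · refine ⟨⟨fun k => witness 𝕜 k, witness_mem 𝕜⟩, ?_⟩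
    intro h
    have h1 := congrArg (fun z : lim (W 𝕜 1) => z.1 0 0) h
    simp only [witness_apply] at h1
    simp at h1
  · exact bijective_sub _ (W_tendsto 𝕜)
  · intro l hl x hx
    have := diverges (W 𝕜 1) (W_tendsto 𝕜) l hl x hx
    simpa only [FunLike.coe_pow_eq_iterate] using this

end Pool.Agent.Results.MP_18d2fb_an.NeumannFails
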